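import Pool.Agent.Y690.JP.Stm
import Pool.Agent.Y977.PP.ABSc

/-!
# Project JP, job JP-ABSc: the main terms with several linear characters
-/

set_option autoImplicit false

open Finset

namespace Pool.Agent.Y25.JP

open Pool.Agent.Y690.PP (NN FF PB sy Basic A2 HR TT)
open Pool.Agent.Y690.JP (Lin A3' wt SABSc)
open Pool.Agent.Y977.PP (mem_PB NN_pos NN_mono le_NN FF_fin mem_FF FF_mono FF_sub_powerset Npos
  sum_inv label evenprod sy_comm sy_sq abs_s_le abs_sy_le TB MB prodNN AA AA_le mem_TB mem_MB)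

section basics

variable {P : Type} {X : Type} [AddCommGroup X] {N : P → ℕ} {s : P → P → ℝ} {ch : X → P → ℝ}

theorem abs_ch (hl : Lin ch) (x : X) (p : P) : |ch x p| = 1 := by
  rcases hl.val x p with e | e <;> rw [e] <;> norm_num

theorem ch_sq (hl : Lin ch) (x : X) (p : P) : ch x p ^ 2 = 1 := by
  rcases hl.val x p with e | e <;> rw [e] <;> norm_num

/-- the main estimate for one multiplicative function -/
theorem key (h : Basic N s (fun _ => 1)) (hl : Lin ch) (h2 : A2 N) (h3 : A3' N s ch)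
    (hHR : HR N) (w : ℝ) (hw0 : 0 ≤ w)
    (hw1 : w ≤ 1) :
    ∃ C : ℝ, 0 ≤ C ∧ ∀ (A' : Finset P) (ε : X), (A'.Nonempty ∨ ε ≠ 0) →
      ∀ g : P → ℝ, (∀ p, 0 ≤ g p) →
      (∀ p, g p ≤ (1 - w) + w * (ch ε p * ∏ q ∈ A', s q p)) → ∀ Y : ℝ, 2 ≤ Y →
      ∑ m ∈ FF N Y, ∏ p ∈ m, g p ≤
        C * Y * Real.log Y ^ (-w) * (1 + Real.log (NN N A')) := by
  classical
  obtain ⟨C2, hC2⟩ := h2
  obtain ⟨C3, hC3⟩ := h3
  obtain ⟨C4, hC40, hC4⟩ := hHR
  refine ⟨(#(FF N (Real.exp 1)) : ℝ) + C4 * Real.exp (|C2| + |C3|), by positivity, ?_⟩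
  intro A' ε hA g hg0 hg Y hY
  have hNA : (0 : ℝ) ≤ Real.log (NN N A') := Real.log_natCast_nonneg _
  have hlY0 : 0 < Real.log Y := Real.log_pos (by linarith)
  have hψ : ∀ p, |ch ε p * ∏ q ∈ A', s q p| ≤ 1 := by
    intro p
    rw [abs_mul, Finset.abs_prod, abs_ch hl, one_mul]
    refine Finset.prod_le_one (fun _ _ => abs_nonneg _) fun q _ => ?_
    by_cases hqp : q = p
    · rw [hqp, h.s_self]; norm_num
    · rcases h.s_val q p hqp with e | e <;> rw [e] <;> norm_num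
  have hg1 : ∀ p, g p ≤ 1 := by
    intro p
    have e1 := hg p
    have e2 := (abs_le.1 (hψ p)).2
    nlinarith
  have hrp : 0 ≤ Real.log Y ^ (-w) := Real.rpow_nonneg hlY0.le _
  by_cases hl : Real.log Y ≤ 1
  · -- the trivial bound
    have hYe : Y ≤ Real.exp 1 := by
      rwa [← Real.log_le_iff_le_exp (by linarith)]
    have e1 : ∑ m ∈ FF N Y, ∏ p ∈ m, g p ≤ (#(FF N (Real.exp 1)) : ℝ) := by
      calc ∑ m ∈ FF N Y, ∏ p ∈ m, g p ≤ ∑ m ∈ FF N Y, (1 : ℝ) :=
            Finset.sum_le_sum fun m _ => Finset.prod_le_one (fun p _ => hg0 p) fun p _ => hg1 p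
        _ = (#(FF N Y) : ℝ) := by simp
        _ ≤ _ := by exact_mod_cast Finset.card_le_card (FF_mono h hYe)
    have e2 : 1 ≤ Real.log Y ^ (-w) := by
      rw [Real.rpow_neg hlY0.le]
      have : Real.log Y ^ w ≤ 1 := Real.rpow_le_one hlY0.le hl hw0
      have h0 : 0 < Real.log Y ^ w := Real.rpow_pos_of_pos hlY0 _
      rw [one_le_inv₀ h0]; exact this
    have e3 : (1 : ℝ) ≤ Y * Real.log Y ^ (-w) * (1 + Real.log (NN N A')) := by
      have : (1 : ℝ) ≤ Y * Real.log Y ^ (-w) := by nlinarith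
      nlinarith
    have e4 : (0 : ℝ) ≤ C4 * Real.exp (|C2| + |C3|) := by positivity
    calc ∑ m ∈ FF N Y, ∏ p ∈ m, g p ≤ (#(FF N (Real.exp 1)) : ℝ) * 1 := by rw [mul_one]; exact e1
      _ ≤ ((#(FF N (Real.exp 1)) : ℝ) + C4 * Real.exp (|C2| + |C3|)) *
          (Y * Real.log Y ^ (-w) * (1 + Real.log (NN N A'))) := by
          apply mul_le_mul (by linarith) e3 (by norm_num) (by positivity)
      _ = _ := by ring
  · push Not at hl
    have hσ : 1 < 1 + 1 / Real.log Y := by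
      have : 0 < 1 / Real.log Y := by positivity
      linarith
    have hσ2 : 1 + 1 / Real.log Y ≤ 2 := by
      have : 1 / Real.log Y ≤ 1 := by
        rw [div_le_one (by linarith)]; exact hl.le
      linarith
    set σ := 1 + 1 / Real.log Y with hσdef
    have e7 : 1 / (σ - 1) = Real.log Y := by
      rw [hσdef]
      field_simp
      ring
    have hsum : Summable fun p : P => (N p : ℝ) ^ (-σ) := by
      refine summable_of_sum_le (c := Real.log (1 / (σ - 1)) + C2)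
        (fun p => Real.rpow_nonneg (Npos h p).le _) fun F => hC2 F σ hσ hσ2
    have hts : ∑' p : P, (N p : ℝ) ^ (-σ) ≤ Real.log (Real.log Y) + C2 := by
      refine Real.tsum_le_of_sum_le (fun p => Real.rpow_nonneg (Npos h p).le _) fun F => ?_
      have := hC2 F σ hσ hσ2
      rwa [e7] at this
    have hsumψ : Summable fun p : P => ch ε p * (∏ q ∈ A', s q p) * (N p : ℝ) ^ (-σ) := by
      refine Summable.of_norm_bounded hsum fun p => ?_
      rw [norm_mul, Real.norm_eq_abs, Real.norm_eq_abs,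
        abs_of_nonneg (Real.rpow_nonneg (Npos h p).le _)]
      have := hψ p
      have h0 := Real.rpow_nonneg (Npos h p).le (-σ)
      nlinarith
    have hA3 := hC3 A' ε hA σ hσ hσ2
    have e8 : ∑ p ∈ PB N Y, g p * (N p : ℝ) ^ (-σ) ≤
        (1 - w) * Real.log (Real.log Y) + Real.log (1 + Real.log (NN N A')) * w +
          (|C2| + |C3|) := by
      calc ∑ p ∈ PB N Y, g p * (N p : ℝ) ^ (-σ)
          ≤ ∑ p ∈ PB N Y, ((1 - w) * (N p : ℝ) ^ (-σ) +
              w * (ch ε p * (∏ q ∈ A', s q p) * (N p : ℝ) ^ (-σ))) := by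
            refine Finset.sum_le_sum fun p _ => ?_
            have h0 := Real.rpow_nonneg (Npos h p).le (-σ)
            have := mul_le_mul_of_nonneg_right (hg p) h0
            nlinarith
        _ ≤ ∑' p : P, ((1 - w) * (N p : ℝ) ^ (-σ) +
              w * (ch ε p * (∏ q ∈ A', s q p) * (N p : ℝ) ^ (-σ))) := by
            refine Summable.sum_le_tsum _ (fun p _ => ?_)
              ((hsum.mul_left _).add (hsumψ.mul_left _))
            have h0 := Real.rpow_nonneg (Npos h p).le (-σ)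
            have h1 := (hg0 p).trans (hg p)
            have := mul_nonneg h1 h0
            nlinarith
        _ = (1 - w) * ∑' p : P, (N p : ℝ) ^ (-σ) +
              w * ∑' p : P, ch ε p * (∏ q ∈ A', s q p) * (N p : ℝ) ^ (-σ) := by
            rw [Summable.tsum_add (hsum.mul_left _) (hsumψ.mul_left _), tsum_mul_left,
              tsum_mul_left]
        _ ≤ (1 - w) * (Real.log (Real.log Y) + C2) +
              w * (Real.log (1 + Real.log (NN N A')) + C3) := by
            gcongr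
        _ ≤ _ := by
            have a1 := le_abs_self C2
            have a2 := le_abs_self C3
            have a3 := abs_nonneg C2
            have a4 := abs_nonneg C3
            nlinarith
    have e9 := hC4 g hg0 hg1 Y hY
    have hX : (0 : ℝ) < 1 + Real.log (NN N A') := by linarith
    have e10 : Real.exp (∑ p ∈ PB N Y, g p * (N p : ℝ) ^ (-σ)) ≤
        Real.log Y ^ (1 - w) * (1 + Real.log (NN N A')) * Real.exp (|C2| + |C3|) := by
      calc Real.exp (∑ p ∈ PB N Y, g p * (N p : ℝ) ^ (-σ))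
          ≤ Real.exp ((1 - w) * Real.log (Real.log Y) +
              Real.log (1 + Real.log (NN N A')) * w + (|C2| + |C3|)) := Real.exp_le_exp.2 e8
        _ = Real.log Y ^ (1 - w) * (1 + Real.log (NN N A')) ^ w * Real.exp (|C2| + |C3|) := by
            rw [Real.exp_add, Real.exp_add, Real.rpow_def_of_pos hlY0, Real.rpow_def_of_pos hX,
              mul_comm (1 - w)]
        _ ≤ _ := by
            have : (1 + Real.log (NN N A')) ^ w ≤ (1 + Real.log (NN N A')) ^ (1 : ℝ) :=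
              Real.rpow_le_rpow_of_exponent_le (by linarith) hw1
            rw [Real.rpow_one] at this
            gcongr
    have e11 : Real.log Y ^ (1 - w) = Real.log Y * Real.log Y ^ (-w) := by
      rw [sub_eq_add_neg, Real.rpow_add hlY0, Real.rpow_one]
    have hcard : (0 : ℝ) ≤ #(FF N (Real.exp 1)) := by positivity
    calc ∑ m ∈ FF N Y, ∏ p ∈ m, g p
        ≤ C4 * (Y / Real.log Y) * Real.exp (∑ p ∈ PB N Y, g p * (N p : ℝ) ^ (-σ)) := e9
      _ ≤ C4 * (Y / Real.log Y) * (Real.log Y ^ (1 - w) * (1 + Real.log (NN N A')) *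
          Real.exp (|C2| + |C3|)) := by
          gcongr
      _ = C4 * Real.exp (|C2| + |C3|) * (Y * Real.log Y ^ (-w) * (1 + Real.log (NN N A'))) := by
          rw [e11]
          field_simp
      _ ≤ ((#(FF N (Real.exp 1)) : ℝ) + C4 * Real.exp (|C2| + |C3|)) *
          (Y * Real.log Y ^ (-w) * (1 + Real.log (NN N A'))) := by
          apply mul_le_mul_of_nonneg_right (by linarith) (by positivity)
      _ = _ := by ring

end basics

section labels

variable {P : Type} {X : Type} [AddCommGroup X] {N : P → ℕ} {s : P → P → ℝ} {ch : X → P → ℝ}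
variable {I : Type} [Fintype I] [DecidableEq I]

/-- the constant attached to the small sets -/
noncomputable def cst (s : P → P → ℝ) (ch : X → P → ℝ) (w : ℝ) (e : I → I → ℕ) (τ : I → X)
    (Λ : Finset I) (B : I → Finset P) : ℝ :=
  (∏ u ∈ Λᶜ, w ^ #(B u)) * (∏ u ∈ Λᶜ, ∏ p ∈ B u, ch (τ u) p) *
    ∏ u ∈ Λᶜ, ∏ v ∈ Λᶜ, sy s (B u) (B v) ^ e u v

/-- the function of one prime attached to the small sets and a label -/
noncomputable def GG (s : P → P → ℝ) (ch : X → P → ℝ) (w : ℝ) (e : I → I → ℕ) (τ : I → X)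
    (Λ : Finset I) (B : I → Finset P) (u : I) (p : P) : ℝ :=
  w * ch (τ u) p * ∏ v ∈ Λᶜ, ∏ q ∈ B v, s q p ^ (e u v + e v u)

theorem abs_cst_le (h : Basic N s (fun _ => 1)) (hl : Lin ch) {w : ℝ} (hw0 : 0 ≤ w) (hw1 : w ≤ 1) (e : I → I → ℕ)
    (τ : I → X) (Λ : Finset I) (B : I → Finset P) : |cst s ch w e τ Λ B| ≤ 1 := by
  unfold cst
  rw [abs_mul, abs_mul]
  have e1 : |∏ u ∈ Λᶜ, w ^ #(B u)| ≤ 1 := by
    rw [Finset.abs_prod]
    refine Finset.prod_le_one (fun _ _ => abs_nonneg _) fun u _ => ?_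
    rw [abs_pow, abs_of_nonneg hw0]
    exact pow_le_one₀ hw0 hw1
  have e2 : |∏ u ∈ Λᶜ, ∏ p ∈ B u, ch (τ u) p| = 1 := by
    rw [Finset.abs_prod]
    refine Finset.prod_eq_one fun u _ => ?_
    rw [Finset.abs_prod]
    refine Finset.prod_eq_one fun p _ => ?_
    rw [abs_ch hl]
  have e3 : |∏ u ∈ Λᶜ, ∏ v ∈ Λᶜ, sy s (B u) (B v) ^ e u v| ≤ 1 := by
    rw [Finset.abs_prod]
    refine Finset.prod_le_one (fun _ _ => abs_nonneg _) fun u _ => ?_
    rw [Finset.abs_prod]
    refine Finset.prod_le_one (fun _ _ => abs_nonneg _) fun v _ => ?_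
    rw [abs_pow]
    exact pow_le_one₀ (abs_nonneg _) (abs_sy_le h _ _)
  rw [e2, mul_one]
  have := abs_nonneg (∏ u ∈ Λᶜ, ∏ v ∈ Λᶜ, sy s (B u) (B v) ^ e u v)
  have := abs_nonneg (∏ u ∈ Λᶜ, w ^ #(B u))
  nlinarith

theorem cst_congr (s : P → P → ℝ) (ch : X → P → ℝ) (w : ℝ) (e : I → I → ℕ) (τ : I → X)
    (Λ : Finset I) {A B : I → Finset P} (hAB : ∀ u, u ∉ Λ → A u = B u) :
    cst s ch w e τ Λ A = cst s ch w e τ Λ B := by
  unfold cst
  have h' : ∀ u ∈ Λᶜ, A u = B u := fun u hu => hAB u (by simpa using hu)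
  congr 1
  · congr 1
    · exact Finset.prod_congr rfl fun u hu => by rw [h' u hu]
    · exact Finset.prod_congr rfl fun u hu => by rw [h' u hu]
  · refine Finset.prod_congr rfl fun u hu => Finset.prod_congr rfl fun v hv => ?_
    rw [h' u hu, h' v hv]

theorem GG_congr (s : P → P → ℝ) (ch : X → P → ℝ) (w : ℝ) (e : I → I → ℕ) (τ : I → X)
    (Λ : Finset I) {A B : I → Finset P} (hAB : ∀ u, u ∉ Λ → A u = B u) (u : I) (p : P) :
    GG s ch w e τ Λ A u p = GG s ch w e τ Λ B u p := by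
  unfold GG
  congr 1
  exact Finset.prod_congr rfl fun v hv => by rw [hAB v (by simpa using hv)]

/-- the weight in terms of the small sets and the functions of one prime -/
theorem wt_eq (h : Basic N s (fun _ => 1)) (hl : Lin ch) (w : ℝ) (e : I → I → ℕ) (τ : I → X) (he : ∀ u, e u u = 0)
    (Λ : Finset I) (hΛ : ∀ u ∈ Λ, ∀ v ∈ Λ, Even (e u v + e v u)) (A : I → Finset P)
    (hd : ∀ u v, u ≠ v → Disjoint (A u) (A v)) :
    wt s ch w e τ A = cst s ch w e τ Λ A * ∏ u ∈ Λ, ∏ p ∈ A u, GG s ch w e τ Λ A u p := by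
  unfold wt cst GG
  have a1 : w ^ (∑ u, #(A u)) = (∏ u ∈ Λ, w ^ #(A u)) * ∏ u ∈ Λᶜ, w ^ #(A u) := by
    rw [← Finset.prod_pow_eq_pow_sum, Finset.prod_mul_prod_compl]
  have a2 : ∏ u, ∏ p ∈ A u, ch (τ u) p =
      (∏ u ∈ Λ, ∏ p ∈ A u, ch (τ u) p) * ∏ u ∈ Λᶜ, ∏ p ∈ A u, ch (τ u) p := by
    rw [Finset.prod_mul_prod_compl]
  have a3 : ∏ u, ∏ v, sy s (A u) (A v) ^ e u v =
      ((∏ u ∈ Λ, ∏ v ∈ Λ, sy s (A u) (A v) ^ e u v) *
        ∏ u ∈ Λ, ∏ v ∈ Λᶜ, sy s (A u) (A v) ^ e u v) *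
      ((∏ u ∈ Λᶜ, ∏ v ∈ Λ, sy s (A u) (A v) ^ e u v) *
        ∏ u ∈ Λᶜ, ∏ v ∈ Λᶜ, sy s (A u) (A v) ^ e u v) := by
    rw [← Finset.prod_mul_distrib, ← Finset.prod_mul_distrib]
    rw [← Finset.prod_mul_prod_compl Λ]
    congr 1
    · exact Finset.prod_congr rfl fun u _ => (Finset.prod_mul_prod_compl Λ _).symm
    · exact Finset.prod_congr rfl fun u _ => (Finset.prod_mul_prod_compl Λ _).symm
  have a4 : ∏ u ∈ Λ, ∏ v ∈ Λ, sy s (A u) (A v) ^ e u v = 1 :=
    evenprod (fun u v => sy s (A u) (A v)) e he Λ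
      (fun u _ v _ huv => ⟨sy_comm h _ _, sy_sq h (hd u v huv)⟩) hΛ
  have a5 : ∏ u ∈ Λ, ∏ p ∈ A u, (w * ch (τ u) p * ∏ v ∈ Λᶜ, ∏ q ∈ A v, s q p ^ (e u v + e v u)) =
      (∏ u ∈ Λ, w ^ #(A u)) * (∏ u ∈ Λ, ∏ p ∈ A u, ch (τ u) p) *
        ((∏ u ∈ Λ, ∏ v ∈ Λᶜ, sy s (A u) (A v) ^ e u v) *
          ∏ u ∈ Λᶜ, ∏ v ∈ Λ, sy s (A u) (A v) ^ e u v) := by
    rw [Finset.prod_comm (s := Λᶜ) (t := Λ), ← Finset.prod_mul_distrib, ← Finset.prod_mul_distrib,
      ← Finset.prod_mul_distrib]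
    refine Finset.prod_congr rfl fun u _ => ?_
    rw [Finset.prod_mul_distrib, Finset.prod_mul_distrib, Finset.prod_const]
    congr 1
    rw [Finset.prod_comm, ← Finset.prod_mul_distrib]
    refine Finset.prod_congr rfl fun v _ => ?_
    rw [sy_comm h (A v) (A u), ← pow_add]
    unfold sy
    rw [← Finset.prod_pow]
    refine Finset.prod_congr rfl fun p _ => ?_
    rw [← Finset.prod_pow]
    exact Finset.prod_congr rfl fun q _ => by rw [h.s_symm]
  rw [a1, a2, a3, a4, a5]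
  ring

/-- the decomposition of the sum -/
theorem decomp (h : Basic N s (fun _ => 1)) (hl : Lin ch) (w : ℝ) (e : I → I → ℕ) (τ : I → X) (he : ∀ u, e u u = 0)
    (Λ : Finset I) (hΛ : ∀ u ∈ Λ, ∀ v ∈ Λ, Even (e u v + e v u)) (x Z : ℝ) (hZ : 1 ≤ Z)
    (S : Finset (I → Finset P))
    (hS : ∀ A, A ∈ S ↔ (∀ u v, u ≠ v → Disjoint (A u) (A v)) ∧
      ((∏ u, NN N (A u) : ℕ) : ℝ) ≤ x ∧ ∀ u, u ∉ Λ → (NN N (A u) : ℝ) ≤ Z) :
    ∑ A ∈ S, wt s ch w e τ A = ∑ B ∈ TB N Λ Z, cst s ch w e τ Λ B *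
      ∑ m ∈ MB N x B, ∏ p ∈ m, ∑ u ∈ Λ, GG s ch w e τ Λ B u p := by
  classical
  set r : (I → Finset P) → (I → Finset P) := fun A u => if u ∈ Λ then ∅ else A u with hr
  have hrS : ∀ A ∈ S, r A ∈ TB N Λ Z := by
    intro A hA
    rw [hS] at hA
    obtain ⟨h1, h2, h3⟩ := hA
    unfold TB
    rw [Finset.mem_filter, Fintype.mem_piFinset]
    refine ⟨fun u => ?_, fun u hu => by simp [hr, hu], fun u v huv => ?_⟩
    · rw [mem_FF h]
      by_cases hu : u ∈ Λ
      · simp only [hr, if_pos hu]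
        simpa [NN] using hZ
      · simp only [hr, if_neg hu]
        exact h3 u hu
    · by_cases hu : u ∈ Λ
      · simp [hr, if_pos hu]
      · by_cases hv : v ∈ Λ
        · simp [hr, if_pos hv]
        · simp only [hr, if_neg hu, if_neg hv]
          exact h1 u v huv
  rw [← Finset.sum_fiberwise_of_maps_to hrS]
  refine Finset.sum_congr rfl fun B hB => ?_
  unfold TB at hB
  rw [Finset.mem_filter, Fintype.mem_piFinset] at hB
  obtain ⟨hB1, hB2, hB3⟩ := hB
  have hun : ∀ A ∈ S.filter (fun A => r A = B), Λ.biUnion A ∈ MB N x B := by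
    intro A hA
    rw [Finset.mem_filter, hS] at hA
    obtain ⟨⟨h1, h2, h3⟩, h4⟩ := hA
    have hAB : ∀ u, u ∉ Λ → A u = B u := by
      intro u hu
      rw [← h4]
      simp [hr, if_neg hu]
    have hprod := prodNN (N := N) Λ A B hB2 hAB (fun u _ v _ huv => h1 u v huv)
    have hnorm : ((∏ u, NN N (B u) : ℕ) : ℝ) * NN N (Λ.biUnion A) ≤ x := by
      rw [← Nat.cast_mul, hprod]
      exact h2
    unfold MB
    rw [Finset.mem_filter, mem_FF h]
    refine ⟨le_trans ?_ hnorm, fun v => ?_, hnorm⟩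
    · have e1 : (1 : ℝ) ≤ ((∏ u, NN N (B u) : ℕ) : ℝ) := by
        exact_mod_cast Finset.one_le_prod' fun u _ => NN_pos h (B u)
      have e2 : (0 : ℝ) ≤ NN N (Λ.biUnion A) := by positivity
      nlinarith
    · by_cases hv : v ∈ Λ
      · rw [hB2 v hv]; exact Finset.disjoint_empty_right _
      · rw [← hAB v hv, Finset.disjoint_biUnion_left]
        intro u hu
        exact h1 u v fun huv => hv (huv ▸ hu)
  rw [← Finset.sum_fiberwise_of_maps_to hun, Finset.mul_sum]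
  refine Finset.sum_congr rfl fun m hm => ?_
  unfold MB at hm
  rw [Finset.mem_filter] at hm
  obtain ⟨hm1, hm2, hm3⟩ := hm
  have hF : ∀ A, A ∈ (S.filter (fun A => r A = B)).filter (fun A => Λ.biUnion A = m) ↔
      (∀ u, u ∉ Λ → A u = B u) ∧
      (∀ u ∈ Λ, ∀ v ∈ Λ, u ≠ v → Disjoint (A u) (A v)) ∧ (∀ p, p ∈ m ↔ ∃ u ∈ Λ, p ∈ A u) := by
    intro A
    rw [Finset.mem_filter, Finset.mem_filter, hS]
    constructor
    · rintro ⟨⟨⟨h1, h2, h3⟩, h4⟩, h5⟩
      refine ⟨fun u hu => ?_, fun u _ v _ huv => h1 u v huv, fun p => ?_⟩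
      · rw [← h4]
        simp [hr, if_neg hu]
      · rw [← h5, Finset.mem_biUnion]
    · rintro ⟨h1, h2, h3⟩
      have hm' : Λ.biUnion A = m := by
        ext p
        rw [Finset.mem_biUnion, h3]
      have hsub : ∀ u ∈ Λ, A u ⊆ m := by
        intro u hu p hp
        exact (h3 p).2 ⟨u, hu, hp⟩
      have hprod := prodNN (N := N) Λ A B hB2 h1 h2
      refine ⟨⟨⟨fun u v huv => ?_, ?_, fun u hu => ?_⟩, ?_⟩, hm'⟩
      · by_cases hu : u ∈ Λ
        · by_cases hv : v ∈ Λ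
          · exact h2 u hu v hv huv
          · rw [h1 v hv]
            exact Finset.disjoint_of_subset_left (hsub u hu) (hm2 v)
        · by_cases hv : v ∈ Λ
          · rw [h1 u hu]
            exact (Finset.disjoint_of_subset_left (hsub v hv) (hm2 u)).symm
          · rw [h1 u hu, h1 v hv]
            exact hB3 u v huv
      · rw [← hprod, hm', Nat.cast_mul]
        exact hm3
      · rw [h1 u hu]
        exact (mem_FF h).1 (hB1 u)
      · funext u
        by_cases hu : u ∈ Λ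
        · simp [hr, if_pos hu, hB2 u hu]
        · simp [hr, if_neg hu, h1 u hu]
  rw [← label Λ m B (GG s ch w e τ Λ B) _ hF, Finset.mul_sum]
  refine Finset.sum_congr rfl fun A hA => ?_
  have hA1 := ((hF A).1 hA).1
  rw [Finset.mem_filter, Finset.mem_filter, hS] at hA
  rw [wt_eq h hl w e τ he Λ hΛ A hA.1.1.1, cst_congr s ch w e τ Λ hA1]
  congr 1
  refine Finset.prod_congr rfl fun u _ => Finset.prod_congr rfl fun p _ => ?_
  exact GG_congr s ch w e τ Λ hA1 u p

/-- the pointwise bound -/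
theorem absf (h : Basic N s (fun _ => 1)) (hl : Lin ch) (w : ℝ) (hw0 : 0 < w) (e : I → I → ℕ) (τ : I → X) (Λ : Finset I)
    (hΛ : (#Λ : ℝ) * w = 1) (B : I → Finset P) (hB : ∀ u v, u ≠ v → Disjoint (B u) (B v))
    (u0 u1 : I) (h0 : u0 ∈ Λ) (h1 : u1 ∈ Λ) (h01 : u0 ≠ u1) (p : P) (hp : ∀ v, p ∉ B v) :
    |∑ u ∈ Λ, GG s ch w e τ Λ B u p| ≤
      (1 - w) + w * (ch (τ u0 + τ u1) p * ∏ q ∈ AA e Λ B u0 u1, s q p) := by
  classical
  set a : I → ℝ := fun u => ch (τ u) p * ∏ v ∈ Λᶜ, ∏ q ∈ B v, s q p ^ (e u v + e v u) with ha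
  have hG : ∀ u, GG s ch w e τ Λ B u p = w * a u := by
    intro u; unfold GG; rw [ha]; ring
  have hs2 : ∀ v, ∀ q ∈ B v, s q p ^ 2 = 1 := by
    intro v q hq
    have hne : q ≠ p := fun hqp => hp v (hqp ▸ hq)
    rcases h.s_val q p hne with e | e <;> rw [e] <;> norm_num
  have ha2 : ∀ u, a u ^ 2 = 1 := by
    intro u
    rw [ha]
    simp only
    rw [mul_pow, ch_sq hl, one_mul, ← Finset.prod_pow]
    refine Finset.prod_eq_one fun v _ => ?_
    rw [← Finset.prod_pow]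
    refine Finset.prod_eq_one fun q hq => ?_
    rw [← pow_mul, mul_comm _ 2, pow_mul, hs2 v q hq, one_pow]
  have habs : ∀ u, |a u| = 1 := by
    intro u
    have := ha2 u
    rw [← sq_abs] at this
    have h0 := abs_nonneg (a u)
    nlinarith
  have hψ : a u0 * a u1 = ch (τ u0 + τ u1) p * ∏ q ∈ AA e Λ B u0 u1, s q p := by
    have e2 : ∏ q ∈ AA e Λ B u0 u1, s q p =
        ∏ v ∈ Λᶜ, ∏ q ∈ B v, s q p ^ ((e u0 v + e v u0) + (e u1 v + e v u1)) := by
      unfold AA
      rw [Finset.prod_biUnion fun u _ v _ huv => hB u v huv, Finset.prod_filter]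
      refine Finset.prod_congr rfl fun v _ => ?_
      split_ifs with hodd
      · refine Finset.prod_congr rfl fun q hq => ?_
        obtain ⟨k, hk⟩ := hodd
        rw [hk, pow_add, pow_mul, hs2 v q hq, one_pow, one_mul, pow_one]
      · rw [Nat.not_odd_iff_even] at hodd
        symm
        refine Finset.prod_eq_one fun q hq => ?_
        obtain ⟨k, hk⟩ := hodd
        rw [hk, ← two_mul, pow_mul, hs2 v q hq, one_pow]
    rw [e2, ha]
    simp only
    rw [hl.add]
    have e3 : ∏ v ∈ Λᶜ, ∏ q ∈ B v, s q p ^ ((e u0 v + e v u0) + (e u1 v + e v u1)) =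
        (∏ v ∈ Λᶜ, ∏ q ∈ B v, s q p ^ (e u0 v + e v u0)) *
          ∏ v ∈ Λᶜ, ∏ q ∈ B v, s q p ^ (e u1 v + e v u1) := by
      rw [← Finset.prod_mul_distrib]
      refine Finset.prod_congr rfl fun v _ => ?_
      rw [← Finset.prod_mul_distrib]
      exact Finset.prod_congr rfl fun q _ => pow_add _ _ _
    rw [e3]
    ring
  rw [← hψ]
  have hsum : ∑ u ∈ Λ, GG s ch w e τ Λ B u p =
      w * (a u0 + a u1) + ∑ u ∈ (Λ.erase u0).erase u1, w * a u := by
    rw [Finset.sum_congr rfl fun u _ => hG u, ← Finset.add_sum_erase Λ _ h0,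
      ← Finset.add_sum_erase (Λ.erase u0) _ (Finset.mem_erase.2 ⟨h01.symm, h1⟩)]
    ring
  have hrest : |∑ u ∈ (Λ.erase u0).erase u1, w * a u| ≤ 1 - 2 * w := by
    calc |∑ u ∈ (Λ.erase u0).erase u1, w * a u|
        ≤ ∑ u ∈ (Λ.erase u0).erase u1, |w * a u| := Finset.abs_sum_le_sum_abs _ _
      _ = ∑ u ∈ (Λ.erase u0).erase u1, w := by
          refine Finset.sum_congr rfl fun u _ => ?_
          rw [abs_mul, habs, mul_one, abs_of_pos hw0]
      _ = (#((Λ.erase u0).erase u1) : ℝ) * w := by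
          rw [Finset.sum_const, nsmul_eq_mul]
      _ = 1 - 2 * w := by
          rw [Finset.card_erase_of_mem (Finset.mem_erase.2 ⟨h01.symm, h1⟩),
            Finset.card_erase_of_mem h0]
          have h2 : 2 ≤ #Λ := by
            have : #({u0, u1} : Finset I) ≤ #Λ := by
              apply Finset.card_le_card
              intro u hu
              simp only [Finset.mem_insert, Finset.mem_singleton] at hu
              rcases hu with rfl | rfl
              · exact h0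
              · exact h1
            rwa [Finset.card_pair h01] at this
          have e4 : ((#Λ - 1 - 1 : ℕ) : ℝ) = (#Λ : ℝ) - 2 := by
            rw [Nat.sub_sub, Nat.cast_sub h2]
            norm_num
          rw [e4]
          linarith
  have h2a : |a u0 + a u1| ≤ 1 + a u0 * a u1 := by
    have b0 := ha2 u0
    have b1 := ha2 u1
    have c0 : a u0 = 1 ∨ a u0 = -1 := sq_eq_one_iff.1 b0
    have c1 : a u1 = 1 ∨ a u1 = -1 := sq_eq_one_iff.1 b1
    rcases c0 with c0 | c0 <;> rcases c1 with c1 | c1 <;> rw [c0, c1] <;> norm_num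
  rw [hsum]
  calc |w * (a u0 + a u1) + ∑ u ∈ (Λ.erase u0).erase u1, w * a u|
      ≤ |w * (a u0 + a u1)| + |∑ u ∈ (Λ.erase u0).erase u1, w * a u| := abs_add_le _ _
    _ ≤ w * (1 + a u0 * a u1) + (1 - 2 * w) := by
        rw [abs_mul, abs_of_pos hw0]
        gcongr
    _ = _ := by ring

/-- two labels with a nontrivial quotient -/
theorem exists_pair (htwo : ∀ x : X, x + x = 0) (e : I → I → ℕ) (τ : I → X) (Λ : Finset I)
    (H3 : ∀ v, v ∉ Λ → (∃ u ∈ Λ, Even (e u v + e v u)) ∧ ∃ u ∈ Λ, Odd (e u v + e v u))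
    (H4 : (∃ u ∈ Λ, τ u ≠ 0) → ∃ u0 ∈ Λ, ∃ u1 ∈ Λ, τ u0 ≠ τ u1) {Z : ℝ} {B : I → Finset P}
    (hB : B ∈ TB N Λ Z) (hne : ¬ (B = (fun _ => ∅) ∧ ∀ u ∈ Λ, τ u = 0)) :
    ∃ u0 ∈ Λ, ∃ u1 ∈ Λ, u0 ≠ u1 ∧ ((AA e Λ B u0 u1).Nonempty ∨ τ u0 + τ u1 ≠ 0) := by
  classical
  rw [mem_TB] at hB
  obtain ⟨_, hB2, _⟩ := hB
  by_cases hv : ∃ v, v ∉ Λ ∧ (B v).Nonempty
  · obtain ⟨v, hv, q, hq⟩ := hv
    obtain ⟨⟨u0, h0, he0⟩, u1, h1, he1⟩ := H3 v hv
    refine ⟨u0, h0, u1, h1, ?_, Or.inl ⟨q, ?_⟩⟩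
    · rintro rfl
      exact (Nat.not_even_iff_odd.2 he1) he0
    · unfold AA
      rw [Finset.mem_biUnion]
      exact ⟨v, Finset.mem_filter.2 ⟨by simpa using hv, he0.add_odd he1⟩, hq⟩
  · push Not at hv
    have hB0 : B = fun _ => ∅ := by
      funext v
      by_cases hvΛ : v ∈ Λ
      · exact hB2 v hvΛ
      · simpa using hv v hvΛ
    have h5 : ∃ u ∈ Λ, τ u ≠ 0 := by
      by_contra h6
      push Not at h6
      exact hne ⟨hB0, h6⟩
    obtain ⟨u0, h0, u1, h1, h01⟩ := H4 h5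
    refine ⟨u0, h0, u1, h1, ?_, Or.inr ?_⟩
    · rintro rfl
      exact h01 rfl
    · intro hz
      apply h01
      have h7 := htwo (τ u1)
      exact add_right_cancel (hz.trans h7.symm)

/-- the sum over the remaining sets for given small sets -/
theorem inner (h : Basic N s (fun _ => 1)) (hl : Lin ch) (h2 : A2 N)
    (h3 : A3' N s ch) (hHR : HR N) (w : ℝ) (hw0 : 0 < w)
    (hw1 : w ≤ 1) (e : I → I → ℕ) (τ : I → X) (Λ : Finset I) (hΛ : (#Λ : ℝ) * w = 1)
    (H3 : ∀ v, v ∉ Λ → (∃ u ∈ Λ, Even (e u v + e v u)) ∧ ∃ u ∈ Λ, Odd (e u v + e v u))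
    (H4 : (∃ u ∈ Λ, τ u ≠ 0) → ∃ u0 ∈ Λ, ∃ u1 ∈ Λ, τ u0 ≠ τ u1) :
    ∃ C : ℝ, 0 ≤ C ∧ ∀ (x Z : ℝ) (B : I → Finset P), B ∈ TB N Λ Z →
      ¬ (B = (fun _ => ∅) ∧ ∀ u ∈ Λ, τ u = 0) →
      2 ≤ x / ((∏ u, NN N (B u) : ℕ) : ℝ) →
      |∑ m ∈ MB N x B, ∏ p ∈ m, ∑ u ∈ Λ, GG s ch w e τ Λ B u p| ≤
        C * (x / ((∏ u, NN N (B u) : ℕ) : ℝ)) *
          Real.log (x / ((∏ u, NN N (B u) : ℕ) : ℝ)) ^ (-w) *
            (1 + Real.log ((∏ u, NN N (B u) : ℕ) : ℝ)) := by
  classical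
  obtain ⟨C, hC0, hC⟩ := key h hl h2 h3 hHR w hw0.le hw1
  refine ⟨C, hC0, fun x Z B hB hne hY => ?_⟩
  obtain ⟨u0, h0, u1, h1, h01, hpair⟩ := exists_pair hl.two e τ Λ H3 H4 hB hne
  obtain ⟨hB1, hB2, hB3⟩ := mem_TB.1 hB
  set q : ℝ := ((∏ u, NN N (B u) : ℕ) : ℝ) with hq
  have hq1 : 1 ≤ q := by
    rw [hq]
    exact_mod_cast Finset.one_le_prod' fun u _ => NN_pos h (B u)
  have hq0 : 0 < q := by linarith
  set g : P → ℝ := fun p => if ∃ v, p ∈ B v then 0 else |∑ u ∈ Λ, GG s ch w e τ Λ B u p| with hg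
  have hw2 : w ≤ 1 / 2 := by
    have h2 : 2 ≤ #Λ := by
      have : #({u0, u1} : Finset I) ≤ #Λ := by
        apply Finset.card_le_card
        intro u hu
        simp only [Finset.mem_insert, Finset.mem_singleton] at hu
        rcases hu with rfl | rfl
        · exact h0
        · exact h1
      rwa [Finset.card_pair h01] at this
    have h2' : (2 : ℝ) ≤ #Λ := by exact_mod_cast h2
    nlinarith
  have hg0 : ∀ p, 0 ≤ g p := by
    intro p
    simp only [hg]
    split_ifs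
    · exact le_rfl
    · exact abs_nonneg _
  have hgle : ∀ p, g p ≤ (1 - w) + w * (ch (τ u0 + τ u1) p *
      ∏ q ∈ AA e Λ B u0 u1, s q p) := by
    intro p
    by_cases hp : ∃ v, p ∈ B v
    · simp only [hg, if_pos hp]
      have e1 : |ch (τ u0 + τ u1) p * ∏ q ∈ AA e Λ B u0 u1, s q p| ≤ 1 := by
        rw [abs_mul, abs_ch hl, one_mul, Finset.abs_prod]
        exact Finset.prod_le_one (fun _ _ => abs_nonneg _) fun q _ => abs_s_le h q p
      have e2 := (abs_le.1 e1).1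
      nlinarith
    · simp only [hg, if_neg hp]
      push Not at hp
      exact absf h hl w hw0 e τ Λ hΛ B hB3 u0 u1 h0 h1 h01 p hp
  have hkey := hC (AA e Λ B u0 u1) (τ u0 + τ u1) hpair g hg0 hgle (x / q) hY
  have hlY : 0 < Real.log (x / q) := Real.log_pos (by linarith)
  have e1 : |∑ m ∈ MB N x B, ∏ p ∈ m, ∑ u ∈ Λ, GG s ch w e τ Λ B u p| ≤
      ∑ m ∈ FF N (x / q), ∏ p ∈ m, g p := by
    calc |∑ m ∈ MB N x B, ∏ p ∈ m, ∑ u ∈ Λ, GG s ch w e τ Λ B u p|
        ≤ ∑ m ∈ MB N x B, |∏ p ∈ m, ∑ u ∈ Λ, GG s ch w e τ Λ B u p| :=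
          Finset.abs_sum_le_sum_abs _ _
      _ = ∑ m ∈ MB N x B, ∏ p ∈ m, g p := by
          refine Finset.sum_congr rfl fun m hm => ?_
          rw [Finset.abs_prod]
          refine Finset.prod_congr rfl fun p hp => ?_
          have hnot : ¬ ∃ v, p ∈ B v := by
            rintro ⟨v, hv⟩
            exact (Finset.disjoint_left.1 ((mem_MB.1 hm).2.1 v)) hp hv
          simp only [hg, if_neg hnot]
      _ ≤ ∑ m ∈ FF N (x / q), ∏ p ∈ m, g p := by
          refine Finset.sum_le_sum_of_subset_of_nonneg (fun m hm => ?_)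
            fun m _ _ => Finset.prod_nonneg fun p _ => hg0 p
          rw [mem_FF h, le_div_iff₀ hq0]
          have := (mem_MB.1 hm).2.2
          linarith
  refine e1.trans (hkey.trans ?_)
  have e2 : Real.log (NN N (AA e Λ B u0 u1)) ≤ Real.log q := by
    apply Real.log_le_log
    · exact_mod_cast (NN_pos h _)
    · rw [hq]
      exact_mod_cast AA_le h e Λ B hB3 u0 u1
  have e3 : 0 ≤ Real.log (x / q) ^ (-w) := Real.rpow_nonneg hlY.le _
  have e4 : 0 ≤ x / q := by linarith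
  gcongr

/-- **the main terms** -/
theorem t_ABSc : Pool.Agent.Y690.JP.TABSc := by
  intro P X _ N s ch I _ _ w e τ h hl h2 h3 hHR hw0 hw1 he
  classical
  intro Λ hΛ H2 H3 H4
  obtain ⟨C1, hC10, hC1⟩ := inner h hl h2 h3 hHR w hw0 hw1 e τ Λ hΛ H3 H4
  obtain ⟨C2, hC20, hC2⟩ := sum_inv h h2
  set k : ℕ := Fintype.card I with hk
  refine ⟨C1 * 2 * (2 + k) * C2 ^ k, w, 3 * k + 1, hw0, fun x Z hx hZ hZx => ?_⟩
  have hlZ : 1 / 2 ≤ Real.log Z := by
    have h1 : Real.log 2 ≤ Real.log Z := Real.log_le_log (by norm_num) hZ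
    have h2 := Real.log_two_gt_d9
    linarith
  have hlx : 0 < Real.log x := Real.log_pos (by linarith)
  set m0 : ℝ := if ∀ u ∈ Λ, τ u = 0 then (#(FF N x) : ℝ) else 0 with hm0
  have hdec := decomp h hl w e τ he Λ H2 x Z (by linarith)
    ((TT I N x).filter (fun A => ∀ u, u ∉ Λ → (NN N (A u) : ℝ) ≤ Z)) (by
      intro A
      unfold TT
      rw [Finset.mem_filter, Finset.mem_filter, Fintype.mem_piFinset]
      constructor
      · rintro ⟨⟨_, h1, h2⟩, h3⟩
        exact ⟨h1, h2, h3⟩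
      · rintro ⟨h1, h2, h3⟩
        refine ⟨⟨fun u => ?_, h1, h2⟩, h3⟩
        rw [mem_FF h]
        refine le_trans ?_ h2
        have : NN N (A u) ≤ ∏ u, NN N (A u) :=
          Finset.single_le_prod' (fun v _ => NN_pos h (A v)) (Finset.mem_univ u)
        exact_mod_cast this)
  have hB0 : (fun _ => ∅ : I → Finset P) ∈ TB N Λ Z := by
    rw [mem_TB]
    refine ⟨fun u => ?_, fun u _ => rfl, fun u v _ => Finset.disjoint_empty_left _⟩
    rw [mem_FF h]
    have : (1 : ℝ) ≤ Z := by linarith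
    simpa [NN] using this
  have hsplit : m0 = ∑ B ∈ TB N Λ Z, if B = (fun _ => ∅) then m0 else 0 := by
    rw [Finset.sum_ite_eq' (TB N Λ Z) (fun _ => ∅) (fun _ => m0), if_pos hB0]
  have hbound : ∀ B ∈ TB N Λ Z,
      |cst s ch w e τ Λ B * ∑ m ∈ MB N x B, ∏ p ∈ m, ∑ u ∈ Λ, GG s ch w e τ Λ B u p -
        if B = (fun _ => ∅) then m0 else 0| ≤
      (C1 * 2 * (2 + k) * x * Real.log x ^ (-w) * Real.log Z) *
        (1 / ((∏ u, NN N (B u) : ℕ) : ℝ)) := by
    intro B hB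
    obtain ⟨hB1, hB2, hB3⟩ := mem_TB.1 hB
    set q : ℝ := ((∏ u, NN N (B u) : ℕ) : ℝ) with hq
    have hq1 : 1 ≤ q := by
      rw [hq]
      exact_mod_cast Finset.one_le_prod' fun u _ => NN_pos h (B u)
    have hq0 : 0 < q := by linarith
    have hrx : 0 ≤ Real.log x ^ (-w) := Real.rpow_nonneg hlx.le _
    by_cases hcase : B = (fun _ => ∅) ∧ ∀ u ∈ Λ, τ u = 0
    · obtain ⟨rfl, hev⟩ := hcase
      rw [if_pos rfl, hm0, if_pos hev]
      have e1 : cst s ch w e τ Λ (fun _ => (∅ : Finset P)) = 1 := by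
        simp [cst, sy]
      have e2 : ∀ p, ∑ u ∈ Λ, GG s ch w e τ Λ (fun _ => (∅ : Finset P)) u p = 1 := by
        intro p
        rw [← hΛ, ← nsmul_eq_mul, ← Finset.sum_const]
        refine Finset.sum_congr rfl fun u hu => ?_
        unfold GG
        rw [hev u hu, hl.zero]
        simp
      have e3 : MB N x (fun _ : I => (∅ : Finset P)) = FF N x := by
        ext m
        rw [mem_MB]
        constructor
        · exact fun h => h.1
        · intro hm
          refine ⟨hm, fun v => Finset.disjoint_empty_right _, ?_⟩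
          rw [mem_FF h] at hm
          simpa [NN] using hm
      rw [e1, e3, one_mul]
      simp_rw [e2]
      simp only [Finset.prod_const_one, Finset.sum_const, nsmul_eq_mul, mul_one, sub_self,
        abs_zero]
      have : 0 ≤ Real.log Z := by linarith
      positivity
    · have hzero : (if B = (fun _ => ∅) then m0 else 0) = 0 := by
        split_ifs with h1
        · rw [hm0, if_neg fun h2 => hcase ⟨h1, h2⟩]
        · rfl
      rw [hzero, sub_zero]
      -- the size of the quotient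
      have hqZ : q ≤ Z ^ k := by
        rw [hq, Nat.cast_prod, hk, ← Finset.card_univ, ← Finset.prod_const]
        exact Finset.prod_le_prod (fun u _ => by positivity) fun u _ => (mem_FF h).1 (hB1 u)
      have hqx : q ^ 2 ≤ x := by
        calc q ^ 2 ≤ (Z ^ k) ^ 2 := by gcongr
          _ = Z ^ (2 * k) := by rw [← pow_mul, mul_comm]
          _ ≤ x := hZx
      have hYx : x ≤ (x / q) ^ 2 := by
        rw [div_pow, le_div_iff₀ (by positivity)]
        nlinarith
      have hY0 : 0 < x / q := by positivity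
      have hY2 : 2 ≤ x / q := by nlinarith
      have hlY : Real.log x / 2 ≤ Real.log (x / q) := by
        have := Real.log_le_log (by linarith) hYx
        rw [Real.log_pow] at this
        push_cast at this
        linarith
      have hrY : Real.log (x / q) ^ (-w) ≤ 2 * Real.log x ^ (-w) := by
        calc Real.log (x / q) ^ (-w) ≤ (Real.log x / 2) ^ (-w) :=
              Real.rpow_le_rpow_of_nonpos (by positivity) hlY (by linarith)
          _ = Real.log x ^ (-w) * 2 ^ w := by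
              rw [Real.div_rpow hlx.le (by norm_num), Real.rpow_neg (by norm_num : (0:ℝ) ≤ 2)]
              field_simp
          _ ≤ Real.log x ^ (-w) * 2 ^ (1 : ℝ) := by
              gcongr
              norm_num
          _ = _ := by rw [Real.rpow_one, mul_comm]
      have hlq : 1 + Real.log q ≤ (2 + k) * Real.log Z := by
        have h1 : Real.log q ≤ k * Real.log Z := by
          have := Real.log_le_log hq0 hqZ
          rwa [Real.log_pow] at this
        nlinarith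
      have hlq0 : 0 ≤ Real.log q := Real.log_nonneg hq1
      have hin := hC1 x Z B hB hcase hY2
      have hcst := abs_cst_le h hl hw0.le hw1 e τ Λ B
      rw [abs_mul]
      calc |cst s ch w e τ Λ B| * |∑ m ∈ MB N x B, ∏ p ∈ m, ∑ u ∈ Λ, GG s ch w e τ Λ B u p|
          ≤ 1 * (C1 * (x / q) * Real.log (x / q) ^ (-w) * (1 + Real.log q)) := by
            apply mul_le_mul hcst hin (abs_nonneg _) (by norm_num)
        _ ≤ 1 * (C1 * (x / q) * (2 * Real.log x ^ (-w)) * ((2 + k) * Real.log Z)) := by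
            gcongr
        _ = _ := by ring
  rw [hdec, hsplit, ← Finset.sum_sub_distrib]
  calc |∑ B ∈ TB N Λ Z, (cst s ch w e τ Λ B *
        ∑ m ∈ MB N x B, ∏ p ∈ m, ∑ u ∈ Λ, GG s ch w e τ Λ B u p -
        if B = (fun _ => ∅) then m0 else 0)|
      ≤ ∑ B ∈ TB N Λ Z, |cst s ch w e τ Λ B *
        ∑ m ∈ MB N x B, ∏ p ∈ m, ∑ u ∈ Λ, GG s ch w e τ Λ B u p -
        if B = (fun _ => ∅) then m0 else 0| := Finset.abs_sum_le_sum_abs _ _
    _ ≤ ∑ B ∈ TB N Λ Z, (C1 * 2 * (2 + k) * x * Real.log x ^ (-w) * Real.log Z) *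
        (1 / ((∏ u, NN N (B u) : ℕ) : ℝ)) := Finset.sum_le_sum hbound
    _ = (C1 * 2 * (2 + k) * x * Real.log x ^ (-w) * Real.log Z) *
        ∑ B ∈ TB N Λ Z, (1 / ((∏ u, NN N (B u) : ℕ) : ℝ)) := by rw [Finset.mul_sum]
    _ ≤ (C1 * 2 * (2 + k) * x * Real.log x ^ (-w) * Real.log Z) *
        (C2 * Real.log Z ^ 3) ^ k := by
        have h0 : 0 ≤ C1 * 2 * (2 + k) * x * Real.log x ^ (-w) * Real.log Z := by
          have := Real.rpow_nonneg hlx.le (-w)
          have : 0 ≤ Real.log Z := by linarith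
          positivity
        refine mul_le_mul_of_nonneg_left ?_ h0
        calc ∑ B ∈ TB N Λ Z, (1 / ((∏ u, NN N (B u) : ℕ) : ℝ))
            ≤ ∑ B ∈ Fintype.piFinset fun _ : I => FF N Z, (1 / ((∏ u, NN N (B u) : ℕ) : ℝ)) := by
              refine Finset.sum_le_sum_of_subset_of_nonneg (fun B hB => ?_)
                fun B _ _ => by positivity
              rw [Fintype.mem_piFinset]
              exact (mem_TB.1 hB).1
          _ = ∑ B ∈ Fintype.piFinset fun _ : I => FF N Z, ∏ u, (1 : ℝ) / NN N (B u) := by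
              refine Finset.sum_congr rfl fun B _ => ?_
              rw [Nat.cast_prod]
              simp
          _ = ∏ _u : I, ∑ A ∈ FF N Z, (1 : ℝ) / NN N A := by
              rw [Finset.prod_univ_sum]
          _ = (∑ A ∈ FF N Z, (1 : ℝ) / NN N A) ^ k := by
              rw [Finset.prod_const, Finset.card_univ]
          _ ≤ (C2 * Real.log Z ^ 3) ^ k := by
              gcongr
              exact hC2 Z hZ
    _ = C1 * 2 * (2 + k) * C2 ^ k * x * Real.log x ^ (-w) * Real.log Z ^ (3 * k + 1) := by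
        rw [mul_pow, ← pow_mul, pow_succ]
        ring

end labels

end Pool.Agent.Y25.JP
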